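import Pool.Agent.Helper82.BR.St

/-!
# Project BR, module CT: circles whose centre is in `S`
-/

set_option autoImplicit false

open Finset

namespace Pool.Agent.Helper71.BR

open scoped ComplexConjugate
open Pool.Agent.Helper82.BR

private theorem mc {p : ℂ} (hp : ‖p‖ = 1) : p * conj p = 1 := by
  rw [Complex.mul_conj, Complex.normSq_eq_norm_sq, hp]
  norm_num

private theorem md {s p q : ℂ} (h : dist s p = dist s q) :
    (s - p) * (conj s - conj p) = (s - q) * (conj s - conj q) := by
  have e : ∀ z : ℂ, z * conj z = ((‖z‖ ^ 2 : ℝ) : ℂ) := by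
    intro z
    rw [Complex.mul_conj, Complex.normSq_eq_norm_sq]
  rw [← map_sub, ← map_sub, e, e, ← Complex.dist_eq, ← Complex.dist_eq, h]

private theorem key1 {s p q : ℂ} (hp : ‖p‖ = 1) (hq : ‖q‖ = 1) (hpq : p ≠ q)
    (h : dist s p = dist s q) : s = p * q * conj s := by
  have hP := mc hp
  have hQ := mc hq
  have hE := md h
  have h1 : (p - q) * (s - p * q * conj s) = 0 := by
    linear_combination (p * q) * hE + (s * q - p * q) * hP + (-(s * p) + p * q) * hQ
  rcases mul_eq_zero.1 h1 with h2 | h2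
  · exact absurd (sub_eq_zero.1 h2) hpq
  · exact sub_eq_zero.1 h2

private theorem key2 {s p : ℂ} (hp : ‖p‖ = 1) (h : dist s 0 = dist s p) :
    conj s * p ^ 2 - p + s = 0 := by
  have hP := mc hp
  have hE := md h
  rw [map_zero, sub_zero, sub_zero] at hE
  linear_combination p * hE + (p - s) * hP

private theorem key3 {s p w : ℂ} (hw : w ^ 2 = w - 1) (hp : ‖p‖ = 1) (hs : ‖s‖ = 1)
    (h : dist s 0 = dist s p) : s = p * w ∨ s = p * (1 - w) := by
  have h1 := key2 hp h
  have h2 := mc hs
  have h3 : (s - p * w) * (s - p * (1 - w)) = 0 := by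
    linear_combination s * h1 - p ^ 2 * h2 - p ^ 2 * hw
  rcases mul_eq_zero.1 h3 with h4 | h4
  · exact Or.inl (sub_eq_zero.1 h4)
  · exact Or.inr (sub_eq_zero.1 h4)

private theorem exists_w : ∃ w : ℂ, w ^ 2 = w - 1 := by
  obtain ⟨z, hz⟩ := IsAlgClosed.exists_pow_nat_eq (-3 : ℂ) (n := 2) (by norm_num)
  exact ⟨(1 + z) / 2, by linear_combination (1 / 4) * hz⟩

private theorem sq_card (A : Finset ℂ) (hA0 : ∀ p ∈ A, p ≠ 0) :
    2 * (A.image (fun p => p ^ 2)).card ≤ A.card + (A.filter (fun p => -p ∉ A)).card := by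
  classical
  have e1 := card_eq_sum_card_image (fun p : ℂ => p ^ 2) A
  have e2 : (A.filter (fun p => -p ∉ A)).card = ∑ b ∈ A.image (fun p => p ^ 2),
      ((A.filter (fun p => -p ∉ A)).filter (fun p => p ^ 2 = b)).card :=
    card_eq_sum_card_fiberwise fun p hp =>
      mem_coe.2 (mem_image_of_mem _ (mem_filter.1 (mem_coe.1 hp)).1)
  rw [e2]
  conv_rhs => rw [e1]
  rw [← sum_add_distrib, mul_comm, ← smul_eq_mul, ← sum_const]
  refine sum_le_sum fun x hx => ?_
  obtain ⟨p, hp, hpx⟩ := mem_image.1 hx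
  by_cases hn : -p ∈ A
  · have h1 : ({p, -p} : Finset ℂ) ⊆ A.filter (fun a => a ^ 2 = x) := by
      intro y hy
      rw [mem_insert, mem_singleton] at hy
      rw [mem_filter]
      rcases hy with rfl | rfl
      · exact ⟨hp, hpx⟩
      · exact ⟨hn, by rw [← hpx]; ring⟩
    have h2 : ({p, -p} : Finset ℂ).card = 2 := by
      apply card_pair
      intro h
      have h3 : (2 : ℂ) * p = 0 := by linear_combination h
      rcases mul_eq_zero.1 h3 with h4 | h4
      · norm_num at h4
      · exact hA0 p hp h4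
    have h3 := card_le_card h1
    omega
  · have h1 : 0 < (A.filter (fun a => a ^ 2 = x)).card :=
      card_pos.2 ⟨p, mem_filter.2 ⟨hp, hpx⟩⟩
    have h2 : 0 < ((A.filter (fun p => -p ∉ A)).filter (fun p => p ^ 2 = x)).card :=
      card_pos.2 ⟨p, mem_filter.2 ⟨mem_filter.2 ⟨hp, hn⟩, hpx⟩⟩
    omega

/-- Module CT. -/
theorem hCT (hPR : StPR) : StCT := by
  classical
  intro S hR hS2 h0
  obtain ⟨A, hA⟩ : ∃ A, A = S.filter (fun s => ‖s‖ = 1) := ⟨_, rfl⟩
  obtain ⟨B, hB⟩ : ∃ B, B = S.filter (fun s => ‖s‖ ≠ 1 ∧ s ≠ 0) := ⟨_, rfl⟩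
  rw [← hA]
  have hAm : ∀ s, s ∈ A ↔ s ∈ S ∧ ‖s‖ = 1 := by
    intro s
    rw [hA, mem_filter]
  have hBm : ∀ s, s ∈ B ↔ s ∈ S ∧ ‖s‖ ≠ 1 ∧ s ≠ 0 := by
    intro s
    rw [hB, mem_filter]
  have hcard : S.card = A.card + B.card + 1 := by
    have h1 : S = insert 0 (A ∪ B) := by
      ext s
      rw [mem_insert, mem_union, hAm, hBm]
      constructor
      · intro hs
        by_cases h1 : s = 0
        · exact Or.inl h1
        · by_cases h2 : ‖s‖ = 1
          · exact Or.inr (Or.inl ⟨hs, h2⟩)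
          · exact Or.inr (Or.inr ⟨hs, h2, h1⟩)
      · rintro (rfl | h | h)
        · exact h0
        · exact h.1
        · exact h.1
    have h2 : (0 : ℂ) ∉ A ∪ B := by
      rw [mem_union, hAm, hBm]
      rintro (h | h)
      · simp at h
      · exact h.2.2 rfl
    have h3 : Disjoint A B := by
      rw [disjoint_left]
      intro s hs hs'
      exact ((hBm s).1 hs').2.1 ((hAm s).1 hs).2
    conv_lhs => rw [h1]
    rw [card_insert_of_notMem h2, card_union_of_disjoint h3]
  have hA0 : ∀ p ∈ A, p ≠ 0 := by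
    rintro p hp rfl
    have := ((hAm 0).1 hp).2
    simp at this
  have hbig : ∀ p ∈ A, 4 ≤ S.card := by
    intro p hp
    obtain ⟨hpS, hp1⟩ := (hAm p).1 hp
    have h2 := hR 0 h0 p hpS (hA0 p hp).symm
    have hsub : S.filter (fun s => dist s 0 = dist s p) ⊆ (S.erase 0).erase p := by
      intro s hs
      rw [mem_filter] at hs
      rw [mem_erase, mem_erase]
      refine ⟨?_, ?_, hs.1⟩
      · rintro rfl
        have := hs.2
        rw [dist_self, dist_zero_right, hp1] at this
        norm_num at this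
      · rintro rfl
        have := hs.2
        rw [dist_self, dist_comm, dist_zero_right, hp1] at this
        norm_num at this
    have h3 := card_le_card hsub
    have h4 : p ∈ S.erase 0 := mem_erase.2 ⟨hA0 p hp, hpS⟩
    rw [card_erase_of_mem h4, card_erase_of_mem h0] at h3
    omega
  rcases Nat.lt_or_ge A.card 3 with ha | ha
  · rcases A.eq_empty_or_nonempty with h | ⟨p, hp⟩
    · rw [h, card_empty]
      omega
    · have := hbig p hp
      omega
  obtain ⟨w, hw⟩ := exists_w
  obtain ⟨U, hU⟩ : ∃ U, U = A.filter (fun p => -p ∉ A) := ⟨_, rfl⟩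
  obtain ⟨A1, hA1⟩ : ∃ A1, A1 = A.filter (fun p => ¬ (p * w ∈ A ∧ p * (1 - w) ∈ A)) := ⟨_, rfl⟩
  have hsq := sq_card A hA0
  rw [← hU] at hsq
  -- products
  have hD := hPR A (fun h => hA0 0 h rfl) ha
  obtain ⟨D, hDD⟩ : ∃ D, D = (A.offDiag).image (fun x => x.1 * x.2) := ⟨_, rfl⟩
  obtain ⟨Q, hQ⟩ : ∃ Q, Q = A.image (fun p => p ^ 2) := ⟨_, rfl⟩
  rw [← hDD] at hD
  rw [← hQ] at hsq
  have h1 : D \ Q ⊆ B.image (fun s => s / conj s) := by
    intro d hd
    rw [mem_sdiff, hDD, mem_image] at hd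
    obtain ⟨⟨⟨p, q⟩, hpq, hpqd⟩, hdQ⟩ := hd
    rw [mem_offDiag] at hpq
    obtain ⟨hp, hq, hne⟩ := hpq
    simp only at hp hq hne hpqd
    obtain ⟨hpS, hp1⟩ := (hAm p).1 hp
    obtain ⟨hqS, hq1⟩ := (hAm q).1 hq
    have h2 := hR p hpS q hqS hne
    have h3 : ∃ s ∈ S.filter (fun s => dist s p = dist s q), s ≠ 0 :=
      exists_mem_ne (by omega) 0
    obtain ⟨s, hs, hs0⟩ := h3
    rw [mem_filter] at hs
    have h4 := key1 hp1 hq1 hne hs.2
    have hc0 : conj s ≠ 0 := by
      intro h
      exact hs0 ((map_eq_zero _).1 h)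
    rw [mem_image]
    refine ⟨s, (hBm s).2 ⟨hs.1, ?_, hs0⟩, ?_⟩
    · intro hs1
      apply hdQ
      rw [hQ, mem_image]
      refine ⟨s, (hAm s).2 ⟨hs.1, hs1⟩, ?_⟩
      have h5 := mc hs1
      rw [← hpqd]
      linear_combination s * h4 + p * q * h5
    · rw [div_eq_iff hc0, ← hpqd]
      exact h4
  have h2 : (D \ Q).card ≤ B.card := (card_le_card h1).trans card_image_le
  have h3 : D.card ≤ (D \ Q).card + Q.card := card_le_card_sdiff_add_card
  -- the bisectors of the radii
  have h4 : ∀ p ∈ A1, ∃ s ∈ B, dist s 0 = dist s p := by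
    intro p hp
    rw [hA1, mem_filter] at hp
    obtain ⟨hpA, hp2⟩ := hp
    obtain ⟨hpS, hp1⟩ := (hAm p).1 hpA
    by_contra hcon
    push Not at hcon
    apply hp2
    have h5 := hR 0 h0 p hpS (hA0 p hpA).symm
    have h6 : ∀ s ∈ S.filter (fun s => dist s 0 = dist s p), s ∈ A ∧ (s = p * w ∨ s = p * (1 - w)) := by
      intro s hs
      rw [mem_filter] at hs
      have hs0 : s ≠ 0 := by
        rintro rfl
        have := hs.2
        rw [dist_self, dist_comm, dist_zero_right, hp1] at this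
        norm_num at this
      have hs1 : ‖s‖ = 1 := by
        by_contra h
        exact hcon s ((hBm s).2 ⟨hs.1, h, hs0⟩) hs.2
      exact ⟨(hAm s).2 ⟨hs.1, hs1⟩, key3 hw hp1 hs1 hs.2⟩
    obtain ⟨s, hs, hsn⟩ := exists_mem_ne (show 1 < (S.filter (fun s => dist s 0 = dist s p)).card by
      omega) (p * w)
    obtain ⟨t, ht, htn⟩ := exists_mem_ne (show 1 < (S.filter (fun s => dist s 0 = dist s p)).card by
      omega) (p * (1 - w))
    obtain ⟨hsA, hs1⟩ := h6 s hs
    obtain ⟨htA, ht1⟩ := h6 t ht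
    have hs2 : s = p * (1 - w) := by
      rcases hs1 with h | h
      · exact absurd h hsn
      · exact h
    have ht2 : t = p * w := by
      rcases ht1 with h | h
      · exact h
      · exact absurd h htn
    rw [← hs2, ← ht2]
    exact ⟨htA, hsA⟩
  have h5 : A1.card ≤ 2 * B.card := by
    choose! f hf using h4
    refine card_le_mul_card_image_of_maps_to (f := f) (fun p hp => (hf p hp).1) 2 ?_
    intro b _
    by_contra hcon
    rw [not_le, two_lt_card] at hcon
    obtain ⟨x, hx, y, hy, z, hz, hxy, hxz, hyz⟩ := hcon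
    rw [mem_filter] at hx hy hz
    have hA1m : ∀ p ∈ A1, ‖p‖ = 1 := by
      intro p hp
      rw [hA1, mem_filter] at hp
      exact ((hAm p).1 hp.1).2
    have kx := key2 (hA1m x hx.1) (hf x hx.1).2
    have ky := key2 (hA1m y hy.1) (hf y hy.1).2
    have kz := key2 (hA1m z hz.1) (hf z hz.1).2
    rw [hx.2] at kx
    rw [hy.2] at ky
    rw [hz.2] at kz
    have e1 : (x - y) * (conj b * (x + y) - 1) = 0 := by linear_combination kx - ky
    have e2 : (x - z) * (conj b * (x + z) - 1) = 0 := by linear_combination kx - kz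
    have f1 : conj b * (x + y) - 1 = 0 := by
      rcases mul_eq_zero.1 e1 with h | h
      · exact absurd (sub_eq_zero.1 h) hxy
      · exact h
    have f2 : conj b * (x + z) - 1 = 0 := by
      rcases mul_eq_zero.1 e2 with h | h
      · exact absurd (sub_eq_zero.1 h) hxz
      · exact h
    have f3 : conj b * (y - z) = 0 := by linear_combination f1 - f2
    rcases mul_eq_zero.1 f3 with h | h
    · rw [h] at f1
      norm_num at f1
    · exact hyz (sub_eq_zero.1 h)
  have h6 : U ⊆ A1 ∪ A1.image (fun x => x * (1 - w)) ∪ A1.image (fun x => x * (-w)) := by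
    intro p hp
    rw [hU, mem_filter] at hp
    obtain ⟨hpA, hpn⟩ := hp
    rw [mem_union, mem_union, mem_image, mem_image]
    by_cases g1 : p * w ∈ A
    · by_cases g2 : p * w * w ∈ A
      · right
        refine ⟨p * w * w, ?_, ?_⟩
        · rw [hA1, mem_filter]
          refine ⟨g2, fun h => hpn ?_⟩
          have e : p * w * w * w = -p := by linear_combination (p * w + p) * hw
          rw [← e]
          exact h.1
        · linear_combination (-(p * w) - p) * hw
      · left
        right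
        refine ⟨p * w, ?_, ?_⟩
        · rw [hA1, mem_filter]
          exact ⟨g1, fun h => g2 h.1⟩
        · linear_combination (-p) * hw
    · left
      left
      rw [hA1, mem_filter]
      exact ⟨hpA, fun h => g1 h.1⟩
  have h7 : U.card ≤ A1.card + A1.card + A1.card := by
    calc U.card ≤ _ := card_le_card h6
      _ ≤ _ := card_union_le _ _
      _ ≤ _ := add_le_add ((card_union_le _ _).trans (add_le_add le_rfl card_image_le))
        card_image_le
  omega

end Pool.Agent.Helper71.BR
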